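import Pool.Agent.helper59.GF.Spec

/-! # Row gf:BDI -/

set_option autoImplicit false

namespace Pool.Agent.GF

open Filter Topology

theorem BDI_sum (hLVL : LVL_stmt) (p : ℕ) (s : Fin (p + 2) → ℝ) (hs : Function.Injective s)
    (he : ∀ r, ell p (s r) ≠ 0) (κ : Fin p → ℝ) (L : ℝ) (y : Fin (p + 2) → ℝ) :
    ∑ r, mu p s r * (L * (1 + ∑ q, κ q * Yl p (s r) q) + y r) = ∑ r, mu p s r * y r := by
  obtain ⟨h1, h2⟩ := hLVL p s hs
  have h3 : ∑ r, mu p s r * (∑ q, κ q * Yl p (s r) q) = 0 := by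
    have : ∀ r, mu p s r * (∑ q, κ q * Yl p (s r) q) = ∑ q, κ q * (mu p s r * Yl p (s r) q) := by
      intro r
      rw [Finset.mul_sum]
      exact Finset.sum_congr rfl fun q _ => by ring
    rw [Finset.sum_congr rfl fun r _ => this r, Finset.sum_comm]
    refine Finset.sum_eq_zero fun q _ => ?_
    rw [← Finset.mul_sum, h2 he q, mul_zero]
  have h4 : ∀ r, mu p s r * (L * (1 + ∑ q, κ q * Yl p (s r) q) + y r) =
      L * mu p s r + L * (mu p s r * (∑ q, κ q * Yl p (s r) q)) + mu p s r * y r := by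
    intro r
    ring
  rw [Finset.sum_congr rfl fun r _ => h4 r, Finset.sum_add_distrib, Finset.sum_add_distrib,
    ← Finset.mul_sum, ← Finset.mul_sum, h1, h3, mul_zero, zero_add, zero_add]

theorem BDI (hLVL : LVL_stmt) : BDI_stmt := by
  intro p ι ι' τ τ' s s' x ξ hs' he' hx hξ κ L t t' htt
  by_cases h : t.1 = t'.1
  · have h2 : t.2 ≠ t'.2 := fun h2 => htt (Prod.ext h h2)
    obtain ⟨I, hI, hlt⟩ := hξ t.2 t'.2 h2
    refine ⟨Sum.inr ∘ I, Sum.inr_injective.comp hI, ?_⟩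
    have key : ∀ t₀ : τ × τ', (∑ r, mu p (sN s s' ∘ (Sum.inr ∘ I)) r *
        xN p s' x ξ κ L t₀ ((Sum.inr ∘ I) r)) = ∑ r, mu p (s' ∘ I) r * ξ t₀.2 (I r) := by
      intro t₀
      exact BDI_sum hLVL p (s' ∘ I) (hs'.comp hI) (fun r => he' _) κ L (fun r => ξ t₀.2 (I r))
    rw [key, key]
    exact hlt
  · obtain ⟨I, hI, hlt⟩ := hx t.1 t'.1 h
    exact ⟨Sum.inl ∘ I, Sum.inl_injective.comp hI, hlt⟩

end Pool.Agent.GF
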